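import Pool.Agent.Lib.MP_28303a_al.NT.H7.Tel
import Pool.Agent.Lib.MP_28303a_al.NT.A.Iface

/-! # KAR -/

set_option autoImplicit false

namespace Pool.Agent.NegK.NT.HNN

universe u

open CategoryTheory Pool.Agent.NegK.NT

/-- KAR. -/
theorem kar : KarStatement.{u} :=
  fun _ _ _ _ _ _ _ _ e he => H7.kar1 e he

end Pool.Agent.NegK.NT.HNN
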