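import Pool.Agent.Lib.MP_28303a_al.NT.H7.Tel
import Pool.Agent.Lib.MP_28303a_al.NT.Kar

/-! # SPL: idempotents of located free modules split in the homotopy category -/

set_option autoImplicit false
set_option linter.unusedSectionVars false
set_option linter.unusedVariables false

namespace Pool.Agent.NegK.NT

universe u v w

open CategoryTheory Limits Pretriangulated Idempotents

namespace H7

/-- Two retracts with the same idempotent are isomorphic. -/
theorem iso_of_retracts {C : Type w} [Category.{v} C] {X X' Z Z' : C} (ρ : Retract X Z)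
    (σ : Retract X' Z') (φ : Z ≅ Z') (h : (ρ.r ≫ ρ.i) ≫ φ.hom = φ.hom ≫ σ.r ≫ σ.i) :
    Nonempty (X ≅ X') := by
  have h' : φ.inv ≫ ρ.r ≫ ρ.i = (σ.r ≫ σ.i) ≫ φ.inv := by
    rw [Iso.inv_comp_eq, ← Category.assoc, ← h, Category.assoc, Iso.hom_inv_id, Category.comp_id]
  refine ⟨⟨ρ.i ≫ φ.hom ≫ σ.r, σ.i ≫ φ.inv ≫ ρ.r, ?_, ?_⟩⟩
  · rw [Category.assoc, Category.assoc, ← Category.assoc σ.r, ← Category.assoc (σ.r ≫ σ.i), ← h',
      Category.assoc, Category.assoc, Iso.hom_inv_id_assoc, ρ.retract, Category.comp_id,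
      ρ.retract]
  · rw [Category.assoc, Category.assoc, ← Category.assoc ρ.r, ← Category.assoc (ρ.r ≫ ρ.i), h,
      Category.assoc, Category.assoc, Iso.inv_hom_id_assoc, σ.retract, Category.comp_id,
      σ.retract]

section

variable {k : Type u} [Ring k] {Γ : Type u} [Group Γ] {B : Type u} [MulAction Γ B] {P : Pre Γ B}

/-- The object `A` in degree `0`, with empty bases in the other degrees. -/
noncomputable def sg (A : Loc k P) : CochainComplex (Loc k P) ℤ where
  X n := ⟨{_i : A.ι // n = 0}, fun i => A.loc i.1⟩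
  d _ _ := 0
  shape _ _ _ := rfl
  d_comp_d' _ _ _ _ _ := by rw [comp_zero]

theorem finC_sg (A : Loc k P) [Finite A.ι] : FinC (sg A) where
  fin n := inferInstanceAs (Finite {_i : A.ι // n = 0})
  bdd := ⟨0, 0, fun n h => ⟨fun x => by
    have := x.2
    omega⟩⟩

/-- The map from `A` to the term in degree `0`. -/
noncomputable def sgi (A : Loc k P) : A ⟶ (sg A).X 0 :=
  Loc.par (A := A) (A' := ⟨{_i : A.ι // (0 : ℤ) = 0}, fun i => A.loc i.1⟩)
    (fun i => some ⟨i, rfl⟩) (by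
      rintro i j h
      cases h
      exact P.refl _)

/-- The map from the term in degree `0` to `A`. -/
noncomputable def sgp (A : Loc k P) : (sg A).X 0 ⟶ A :=
  Loc.par (A := ⟨{_i : A.ι // (0 : ℤ) = 0}, fun i => A.loc i.1⟩) (A' := A)
    (fun i => some i.1) (by
      rintro i j h
      cases h
      exact P.refl _)

theorem sgi_sgp (A : Loc k P) : sgi A ≫ sgp A = 𝟙 A := by
  refine Loc.ext_basis fun i => ?_
  have h1 : Loc.lin (sgi A) (Finsupp.single i 1) = Finsupp.single ⟨i, rfl⟩ 1 :=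
    Loc.par_some (A := A) (A' := ⟨{_i : A.ι // (0 : ℤ) = 0}, fun i => A.loc i.1⟩) _ _ rfl
  have h2 : Loc.lin (sgp A) (Finsupp.single ⟨i, rfl⟩ 1) = Finsupp.single i 1 :=
    Loc.par_some (A := ⟨{_i : A.ι // (0 : ℤ) = 0}, fun i => A.loc i.1⟩) (A' := A) _ _ rfl
  rw [Loc.lin_comp, LinearMap.comp_apply, h1, h2]
  rfl

theorem sgi_d (A : Loc k P) (n : ℤ) (_ : (ComplexShape.up ℤ).Rel 0 n) :
    sgi A ≫ (sg A).d 0 n = 0 := comp_zero

theorem sgp_d (A : Loc k P) (n : ℤ) (_ : (ComplexShape.up ℤ).Rel n 0) :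
    (sg A).d n 0 ≫ sgp A = 0 := zero_comp

/-- The complexes are isomorphic. -/
noncomputable def rsg (A : Loc k P) :
    Retract ((HomologicalComplex.single (Loc k P) (ComplexShape.up ℤ) 0).obj A) (sg A) where
  i := HomologicalComplex.mkHomFromSingle (sgi A) (sgi_d A)
  r := HomologicalComplex.mkHomToSingle (sgp A) (sgp_d A)
  retract := by
    refine HomologicalComplex.from_single_hom_ext ?_
    rw [HomologicalComplex.comp_f, HomologicalComplex.mkHomFromSingle_f,
      HomologicalComplex.mkHomToSingle_f, HomologicalComplex.id_f, Category.assoc,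
      ← Category.assoc (sgi A), sgi_sgp, Category.id_comp, Iso.hom_inv_id]

/-- Finite objects in degree `0` are perfect. -/
theorem per_single (A : Loc k P) [Finite A.ι] : Per ((sq k P).obj A) :=
  ⟨sg A, finC_sg A, ⟨(rsg A).map (HomotopyCategory.quotient _ _)⟩⟩

end

end H7

/-- SPL. -/
theorem spl (k : Type u) [Ring k] {Γ : Type u} [Group Γ] {B : Type u} [MulAction Γ B]
    (P : Pre Γ B) : SPL k P := by
  intro Y hY
  obtain ⟨X, ρ, hρ⟩ := H7.kar1 Y.p Y.idem
  refine ⟨X, ?_, ?_⟩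
  · obtain ⟨E, hE, ⟨σ⟩⟩ := H7.per_single Y.X
    exact ⟨E, hE, ⟨ρ.trans σ⟩⟩
  let G : KL k P ⥤ KKL k P := HomologicalComplex.single (KL k P) (ComplexShape.up ℤ) 0 ⋙
    HomotopyCategory.quotient (KL k P) (ComplexShape.up ℤ)
  let φ : H7.sq k P ⋙ tk k P ≅ toKaroubi (Loc k P) ⋙ G :=
    Functor.isoWhiskerRight
      (HomologicalComplex.singleMapHomologicalComplex (toKaroubi (Loc k P)) (ComplexShape.up ℤ) 0)
      (HomotopyCategory.quotient (KL k P) (ComplexShape.up ℤ))
  refine H7.iso_of_retracts (ρ.map (tk k P))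
    (Retract.map (F := G) ⟨Karoubi.decompId_i Y, Karoubi.decompId_p Y,
      (Karoubi.decompId Y).symm⟩) (φ.app Y.X) ?_
  change ((tk k P).map ρ.r ≫ (tk k P).map ρ.i) ≫ φ.hom.app Y.X =
    φ.hom.app Y.X ≫ G.map (Karoubi.decompId_p Y) ≫ G.map (Karoubi.decompId_i Y)
  rw [← Functor.map_comp, ← Functor.map_comp, hρ, ← Karoubi.decomp_p]
  exact φ.hom.naturality Y.p

end Pool.Agent.NegK.NT
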