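import Pool.Agent.Lib.MP_28303a_al.NT.Sys

/-! # Telescopes: idempotents of located free modules split in the homotopy category -/

set_option autoImplicit false
set_option linter.unusedSectionVars false
set_option linter.unusedVariables false

namespace Pool.Agent.NegK.NT.H7

universe u v w

open CategoryTheory Limits Pretriangulated Pool.Agent.NegK.NT

/-! ### Split monomorphisms of triangulated categories -/

section

variable {C : Type w} [Category.{v} C] [Preadditive C] [HasZeroObject C] [HasShift C ℤ]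
  [∀ n : ℤ, (shiftFunctor C n).Additive] [Pretriangulated C]

/-- A split monomorphism has a complement. -/
theorem compl {X Y : C} (d : X ⟶ Y) (s : Y ⟶ X) (hds : d ≫ s = 𝟙 X) :
    ∃ (Z : C) (p : Y ⟶ Z) (j : Z ⟶ Y), j ≫ p = 𝟙 Z ∧ d ≫ p = 0 ∧ p ≫ j = 𝟙 Y - s ≫ d := by
  obtain ⟨Z, p, w, hT⟩ := distinguished_cocone_triangle d
  have h1 : d ≫ p = 0 := comp_distTriang_mor_zero₁₂ _ hT
  have h3 : w ≫ d⟦(1 : ℤ)⟧' = 0 := comp_distTriang_mor_zero₃₁ _ hT
  have hw : w = 0 := by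
    have h4 : d⟦(1 : ℤ)⟧' ≫ s⟦(1 : ℤ)⟧' = 𝟙 _ := by
      rw [← Functor.map_comp, hds, CategoryTheory.Functor.map_id]
    have h5 : w ≫ d⟦(1 : ℤ)⟧' ≫ s⟦(1 : ℤ)⟧' = 0 := by
      rw [← Category.assoc, h3, zero_comp]
    rw [h4] at h5
    exact (Category.comp_id w).symm.trans h5
  obtain ⟨j, hj⟩ : ∃ j : Z ⟶ Y, 𝟙 Z = j ≫ p := Triangle.coyoneda_exact₃ _ hT (𝟙 Z) (by
    change 𝟙 Z ≫ w = 0
    rw [hw, comp_zero])
  have hj' : (j - j ≫ s ≫ d) ≫ p = 𝟙 Z := by
    rw [Preadditive.sub_comp, Category.assoc, Category.assoc, h1, comp_zero, comp_zero, sub_zero,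
      ← hj]
  refine ⟨Z, p, j - j ≫ s ≫ d, hj', h1, ?_⟩
  have h6 : d ≫ (𝟙 Y - s ≫ d - p ≫ (j - j ≫ s ≫ d)) = 0 := by
    rw [Preadditive.comp_sub, Preadditive.comp_sub, Category.comp_id, reassoc_of% hds,
      reassoc_of% h1, zero_comp, sub_self, sub_zero]
  obtain ⟨v, hv⟩ : ∃ v : Z ⟶ Y, 𝟙 Y - s ≫ d - p ≫ (j - j ≫ s ≫ d) = p ≫ v :=
    Triangle.yoneda_exact₂ _ hT (𝟙 Y - s ≫ d - p ≫ (j - j ≫ s ≫ d)) h6
  have h7 : (j - j ≫ s ≫ d) ≫ s = 0 := by
    rw [Preadditive.sub_comp, Category.assoc, Category.assoc, hds, Category.comp_id, sub_self]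
  have h8 : v = 0 := by
    have h9 : (j - j ≫ s ≫ d) ≫ (𝟙 Y - s ≫ d - p ≫ (j - j ≫ s ≫ d)) = v := by
      rw [hv, reassoc_of% hj']
    rw [← h9, Preadditive.comp_sub, Preadditive.comp_sub, Category.comp_id, reassoc_of% h7,
      zero_comp, sub_zero, reassoc_of% hj', sub_self]
  rw [h8, comp_zero, sub_eq_zero] at hv
  exact hv.symm

/-- Idempotents which are complementary to a split monomorphism split. -/
theorem splits {X A : C} (d s : X ⟶ X) (i : X ⟶ A) (r : A ⟶ X) (e : A ⟶ A) (hds : d ≫ s = 𝟙 X)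
    (hir : i ≫ r = 𝟙 X - s ≫ d) (hri : r ≫ i = e) (he : e ≫ e = e) :
    ∃ (Z : C) (ρ : Retract Z A), ρ.r ≫ ρ.i = e := by
  obtain ⟨Z, p, j, h1, h2, h3⟩ := compl d s hds
  refine ⟨Z, ⟨j ≫ i, r ≫ p, ?_⟩, ?_⟩
  · rw [Category.assoc, reassoc_of% hir, Preadditive.sub_comp, Category.id_comp, Category.assoc,
      h2, comp_zero, sub_zero, h1]
  · change (r ≫ p) ≫ j ≫ i = e
    rw [Category.assoc, reassoc_of% h3, ← hir, Category.assoc, hri, ← Category.assoc, hri, he]

end

/-! ### Countable sums -/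

section

variable {k : Type u} [Ring k] {Γ : Type u} [Group Γ] {B : Type u} [MulAction Γ B] {P : Pre Γ B}

/-- The countable sum of copies of `A`. -/
abbrev cs (A : Loc k P) : Loc k P := ⟨A.ι × ℕ, fun x => A.loc x.1⟩

/-- The inclusions. -/
noncomputable def inc (A : Loc k P) (n : ℕ) : A ⟶ cs A :=
  Loc.par (A := A) (A' := cs A) (fun i => some (i, n)) (by
    rintro i j h
    cases h
    exact P.refl _)

theorem lin_inc (A : Loc k P) (n : ℕ) (i : A.ι) :
    Loc.lin (inc A n) (Finsupp.single i 1) = Finsupp.single (i, n) 1 :=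
  Loc.par_some (A := A) (A' := cs A) _ _ rfl

/-- Maps from the countable sum. -/
noncomputable def dsc {A A' : Loc k P} (f : ℕ → (A ⟶ A')) : cs A ⟶ A' :=
  Loc.ofB (A := cs A) (A' := A') (fun x => Loc.lin (f x.2) (Finsupp.single x.1 1)) (by
    intro x j g hg
    exact Loc.spt_lin (f x.2) x.1 j g hg)

theorem inc_dsc {A A' : Loc k P} (f : ℕ → (A ⟶ A')) (n : ℕ) : inc A n ≫ dsc f = f n := by
  refine Loc.ext_basis fun i => ?_
  rw [Loc.lin_comp, LinearMap.comp_apply, lin_inc]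
  exact Loc.lin_ofB (A := cs A) (A' := A') _ _ (i, n)

theorem cs_ext {A A' : Loc k P} {f g : cs A ⟶ A'} (h : ∀ n, inc A n ≫ f = inc A n ≫ g) :
    f = g := by
  refine Loc.ext_basis ?_
  rintro ⟨i, n⟩
  have h1 := congrArg (fun x => Loc.lin x (Finsupp.single i 1)) (h n)
  simp only [Loc.lin_comp, LinearMap.comp_apply, lin_inc] at h1
  exact h1

variable {A : Loc k P} (e : A ⟶ A)

/-- The map `1 - shift ∘ e`. -/
noncomputable def dd : cs A ⟶ cs A := dsc fun n => inc A n - e ≫ inc A (n + 1)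

/-- Its inverse on one side. -/
noncomputable def ss : cs A ⟶ cs A :=
  dsc fun n => inc A n - ∑ m ∈ Finset.range (n + 1), e ≫ inc A m

theorem inc_dd (n : ℕ) : inc A n ≫ dd e = inc A n - e ≫ inc A (n + 1) := inc_dsc _ n

theorem inc_ss (n : ℕ) :
    inc A n ≫ ss e = inc A n - ∑ m ∈ Finset.range (n + 1), e ≫ inc A m := inc_dsc _ n

theorem dd_ss (he : e ≫ e = e) : dd e ≫ ss e = 𝟙 _ := by
  refine cs_ext fun n => ?_
  rw [← Category.assoc, inc_dd, Preadditive.sub_comp, Category.assoc, inc_ss, inc_ss,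
    Category.comp_id, Preadditive.comp_sub, Preadditive.comp_sum,
    Finset.sum_congr rfl (fun m _ => (Category.assoc e e (inc A m)).symm), he,
    Finset.sum_range_succ _ (n + 1)]
  abel

theorem ss_dd (he : e ≫ e = e) :
    (dsc fun _ => e) ≫ inc A 0 = 𝟙 (cs A) - ss e ≫ dd e := by
  refine cs_ext fun n => ?_
  rw [← Category.assoc, inc_dsc, Preadditive.comp_sub, Category.comp_id, ← Category.assoc, inc_ss,
    Preadditive.sub_comp, inc_dd, Preadditive.sum_comp]
  have h1 : ∀ m ∈ Finset.range (n + 1), (e ≫ inc A m) ≫ dd e =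
      e ≫ inc A m - e ≫ inc A (m + 1) := by
    intro m _
    rw [Category.assoc, inc_dd, Preadditive.comp_sub, ← Category.assoc, he]
  rw [Finset.sum_congr rfl h1, Finset.sum_range_sub']
  abel

theorem inc_e : inc A 0 ≫ (dsc fun _ => e) = e := inc_dsc _ 0

/-- The functor to the homotopy category. -/
noncomputable abbrev sq (k : Type u) [Ring k] {Γ : Type u} [Group Γ] {B : Type u} [MulAction Γ B]
    (P : Pre Γ B) : Loc k P ⥤ KK k P :=
  CochainComplex.singleFunctor (Loc k P) 0 ⋙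
    HomotopyCategory.quotient (Loc k P) (ComplexShape.up ℤ)

instance : (CochainComplex.singleFunctor (Loc k P) 0).Additive :=
  inferInstanceAs (HomologicalComplex.single (Loc k P) (ComplexShape.up ℤ) 0).Additive

/-- Idempotents split in the homotopy category. -/
theorem kar1 (he : e ≫ e = e) :
    ∃ (Y : KK k P) (ρ : Retract Y ((sq k P).obj A)), ρ.r ≫ ρ.i = (sq k P).map e := by
  refine splits ((sq k P).map (dd e)) ((sq k P).map (ss e)) ((sq k P).map (dsc fun _ => e))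
    ((sq k P).map (inc A 0)) ((sq k P).map e) ?_ ?_ ?_ ?_
  · rw [← Functor.map_comp, dd_ss e he, CategoryTheory.Functor.map_id]
  · rw [← Functor.map_comp, ss_dd e he, Functor.map_sub, CategoryTheory.Functor.map_id,
      Functor.map_comp]
  · rw [← Functor.map_comp, inc_e]
  · rw [← Functor.map_comp, he]

end

end Pool.Agent.NegK.NT.H7
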